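import Pool.Agent.MDG.Stmts

/-!
# Squad MDG, row T2R (helper94)

Both sides: apply TWR to `t` and to `fun v => !(t v)` and add.
-/

set_option autoImplicit false

open Finset Matrix Pool.Agent.HEC

namespace Pool.Agent.MDG.H94

open Pool.Agent.MDG

theorem t2r (h1 : TwrStmt) : T2rStmt := by
  intro V _ H t L eta M r z0 z1 hb hL hc he hM hs1 hs2
  have hb' : ∀ u v, H.Adj u v → (fun v => !(t v)) u ≠ (fun v => !(t v)) v := by
    intro u v huv h
    apply hb u v huv
    simpa using h
  have hs2' : ∑ v, (if (fun v => !(t v)) v = true then r v else 0) = M * z1 := by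
    have e : ∑ v, (if (fun v => !(t v)) v = true then r v else 0)
        = ∑ v, (if t v = true then 0 else r v) := by
      apply Finset.sum_congr rfl
      intro v _
      cases h : t v <;> simp [h]
    rw [e]
    exact hs2
  obtain ⟨y1, x1, R1, a1, d1, s1⟩ := h1 V H t L eta M r z0 hb hL hc he hM hs1
  obtain ⟨y2, x2, R2, a2, d2, s2⟩ :=
    h1 V H (fun v => !(t v)) L eta M r z1 hb' hL hc he hM hs2'
  have hbd : ∀ v, bd (fun u w => x1 u w + x2 u w) v = bd x1 v + bd x2 v := by
    intro v
    unfold bd
    rw [Finset.sum_add_distrib]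
  refine ⟨fun v => if t v = true then y1 v else y2 v, fun u v => x1 u v + x2 u v,
    ⟨?_, ?_, ?_⟩, ?_, ?_⟩
  · intro u v
    show x1 u v + x2 u v = x1 v u + x2 v u
    rw [R1.symm u v, R2.symm u v]
  · intro u v huv
    show x1 u v + x2 u v = 0
    rw [R1.supp u v huv, R2.supp u v huv, add_zero]
  · intro u v
    show |x1 u v + x2 u v| ≤ 2 * M * eta
    have e1 := R1.rng u v
    have e2 := R2.rng u v
    calc |x1 u v + x2 u v| ≤ |x1 u v| + |x2 u v| := abs_add_le _ _
      _ ≤ M * eta + M * eta := add_le_add e1 e2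
      _ = 2 * M * eta := by ring
  · intro v
    rw [hbd]
    cases h : t v
    · have e1 := a1 v h
      have e2 := d2 v (by simp [h])
      simp [h, e1, e2]
    · have e1 := d1 v h
      have e2 := a2 v (by simp [h])
      simp [h, e1, e2]
  · refine Eq.trans ?_ s1
    apply Finset.sum_congr rfl
    intro v _
    rw [hbd]
    cases h : t v
    · have e1 := a1 v h
      simp [h, e1]
    · have e2 := a2 v (by simp [h])
      simp [h, e2]

end Pool.Agent.MDG.H94
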